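import Pool.Agent.Helper1.FF2.Goals2

/-!
MP_7cb822_co, packet S2: the sectors with the depths of the branch vertices.
-/

set_option autoImplicit false

namespace Pool.Agent.Helper17.FF

open Finset
open Pool.Agent.Helper34.FF hiding StmtG
open Pool.Agent.Helper1.FF2
open scoped symmDiff Classical

theorem pf_StmtSecAlpha (hLca : StmtLca) : StmtSecAlpha := by
  intro V F _ _ T hT E l c Ω u P U hE hP hR hu hU hbd
  have hcV : ∀ i, c i ∈ T.Vbd E := by
    intro i
    simp only [Tri.Vbd, mem_filter, mem_univ, true_and]
    exact ⟨s(c i, c (i + 1)), (hE.bd _).mpr ⟨i, rfl⟩, by simp⟩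
  have hne : ∀ i, u ≠ c i := by
    intro i h
    exact hu (h ▸ hcV i)
  have hd : ∀ i, 1 ≤ Ω.dist u (c i) := by
    intro i
    exact Nat.one_le_iff_ne_zero.mpr fun h => hne i (((hR i).dist_eq_zero_iff).mp h)
  have hL : ∀ x y, ∃ a, Ω.Reachable u x → Ω.Reachable u y → a ≤ Ω.dist u x ∧ a ≤ Ω.dist u y ∧
      (∀ i, i ≤ Ω.dist u x → i ≤ Ω.dist u y → (P x i = P y i ↔ i ≤ a)) ∧
      tE Ω u P x ∆ tE Ω u P y =
        wE (Ω.dist u x - a) (fun t => P x (a + t)) ∪ wE (Ω.dist u y - a) (fun t => P y (a + t)) ∧
      (tE Ω u P x ∆ tE Ω u P y).card + 2 * a = Ω.dist u x + Ω.dist u y := by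
    intro x y
    by_cases hxy : Ω.Reachable u x ∧ Ω.Reachable u y
    · obtain ⟨a, h1, h2, h3, h4, h5, -⟩ := hLca V Ω u P hP x y hxy.1 hxy.2
      exact ⟨a, fun _ _ => ⟨h1, h2, h3, h4, h5⟩⟩
    · exact ⟨0, fun hx hy => absurd ⟨hx, hy⟩ hxy⟩
  choose A hA using hL
  refine ⟨fun i => A (c i) (c (i + 1)), ?_, ?_, ?_, ?_⟩
  · intro i
    have h1 := hE.per i
    have h2 := hE.per (i + 1)
    have h3 : i + l + 1 = i + 1 + l := by ring
    simp only [h3, h1, h2]
  · intro i
    obtain ⟨-, -, -, -, h5⟩ := hA (c i) (c (i + 1)) (hR i) (hR (i + 1))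
    have h6 : T.len (U i) ≤ 1 + (tE Ω u P (c i) ∆ tE Ω u P (c (i + 1))).card := by
      rw [Tri.len, hbd i]
      calc _ ≤ (({s(c i, c (i + 1))} : Finset (Sym2 V)) ∪
            (tE Ω u P (c i) ∆ tE Ω u P (c (i + 1)))).card := by
            apply Finset.card_le_card
            intro e he
            rw [Finset.mem_symmDiff] at he
            rw [Finset.mem_union]
            rcases he with h | h
            · exact Or.inl h.1
            · exact Or.inr h.1
        _ ≤ _ := by
            refine (Finset.card_union_le _ _).trans ?_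
            rw [Finset.card_singleton]
    show T.len (U i) + 2 * A (c i) (c (i + 1)) ≤ _
    omega
  · intro i
    obtain ⟨h1, h2, h3, h4, h5⟩ := hA (c i) (c (i + 1)) (hR i) (hR (i + 1))
    show A (c i) (c (i + 1)) = 0 ↔ _
    constructor
    · intro h0
      rw [h0] at h4
      simp only [Nat.sub_zero, Nat.zero_add] at h4
      have hw := (hP.walk (c i) (hR i)).1
      simp only [Tri.Vbd, mem_filter, mem_univ, true_and]
      refine ⟨s(P (c i) 0, P (c i) (0 + 1)), ?_, ?_⟩
      · rw [hbd i, Finset.mem_symmDiff]
        right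
        constructor
        · rw [h4, Finset.mem_union]
          left
          rw [wE, Finset.mem_image]
          exact ⟨0, Finset.mem_range.mpr (hd i), rfl⟩
        · intro hc
          rw [Finset.mem_singleton, hw] at hc
          have : u ∈ s(c i, c (i + 1)) := by
            rw [← hc]; simp
          rw [Sym2.mem_iff] at this
          rcases this with h | h
          · exact hne i h
          · exact hne (i + 1) h
      · rw [hw]; simp
    · intro hub
      by_contra h0
      have ha : 1 ≤ A (c i) (c (i + 1)) := Nat.one_le_iff_ne_zero.mpr h0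
      simp only [Tri.Vbd, mem_filter, mem_univ, true_and] at hub
      obtain ⟨e, he, hue⟩ := hub
      rw [hbd i, Finset.mem_symmDiff] at he
      rcases he with h | h
      · have h := Finset.mem_singleton.mp h.1
        rw [h, Sym2.mem_iff] at hue
        rcases hue with h | h
        · exact hne i h
        · exact hne (i + 1) h
      · have h := h.1
        rw [h4, Finset.mem_union] at h
        have key : ∀ j, e ∈ wE (Ω.dist u (c j) - A (c i) (c (i + 1)))
            (fun t => P (c j) (A (c i) (c (i + 1)) + t)) → False := by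
          intro j hj
          rw [wE, Finset.mem_image] at hj
          obtain ⟨t, ht, rfl⟩ := hj
          rw [Finset.mem_range] at ht
          rw [Sym2.mem_iff] at hue
          rcases hue with h | h
          · have := hP.depth (c j) (hR j) (A (c i) (c (i + 1)) + t) (by omega)
            rw [← h, SimpleGraph.dist_self] at this
            omega
          · have := hP.depth (c j) (hR j) (A (c i) (c (i + 1)) + (t + 1)) (by omega)
            rw [← h, SimpleGraph.dist_self] at this
            omega
        rcases h with h | h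
        · exact key i h
        · exact key (i + 1) h
  · intro i
    obtain ⟨h1, h2, h3, h4, h5⟩ := hA (c i) (c (i + 1)) (hR i) (hR (i + 1))
    rw [h3 1 (hd i) (hd (i + 1))]
    exact Nat.one_le_iff_ne_zero.symm

end Pool.Agent.Helper17.FF
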